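import Pool.Agent.U485.SM.Stm2

/-!
# Project HT, package SIN: the singular series of admissible shifts is positive
-/

set_option autoImplicit false

open Finset Filter Topology

namespace Pool.Agent.U934.HT

open Pool.Agent.U485.SM

/-- the local factor -/
noncomputable def fac (H : Finset ℕ) (p : ℕ) : ℝ :=
  (1 - (res H p : ℝ) / p) * (1 - 1 / (p : ℝ))⁻¹ ^ H.card

lemma PP_eq (H : Finset ℕ) (y : ℕ) :
    PP H y = ∏ p ∈ Finset.Icc 1 y, (if p.Prime then fac H p else 1) := by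
  unfold PP Pr fac
  rw [Finset.prod_filter]

lemma PP_succ (H : Finset ℕ) (y : ℕ) :
    PP H (y + 1) = PP H y * (if (y + 1).Prime then fac H (y + 1) else 1) := by
  rw [PP_eq, PP_eq, Finset.prod_Icc_succ_top (by omega)]

lemma one_sub_pos (p : ℕ) (hp : p.Prime) : 0 < 1 - 1 / (p : ℝ) := by
  have h2 : (2 : ℝ) ≤ p := by exact_mod_cast hp.two_le
  rw [sub_pos, div_lt_one (by linarith)]
  linarith

lemma fac_pos (H : Finset ℕ) (p : ℕ) (hp : p.Prime) (h : res H p < p) : 0 < fac H p := by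
  unfold fac
  have h2 : (2 : ℝ) ≤ p := by exact_mod_cast hp.two_le
  have h3 : (res H p : ℝ) < p := by exact_mod_cast h
  have h4 : 0 < 1 - (res H p : ℝ) / p := by
    rw [sub_pos, div_lt_one (by linarith)]
    exact h3
  have h5 := one_sub_pos p hp
  positivity

lemma res_eq (H : Finset ℕ) (p : ℕ) (h : ∀ x ∈ H, x < p) : res H p = H.card := by
  unfold res
  apply Finset.card_image_of_injOn
  intro a ha b hb hab
  change a % p = b % p at hab
  rwa [Nat.mod_eq_of_lt (h a ha), Nat.mod_eq_of_lt (h b hb)] at hab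

lemma fac_le_one (H : Finset ℕ) (p : ℕ) (hp : p.Prime) (h : res H p = H.card) : fac H p ≤ 1 := by
  unfold fac
  rw [h]
  have h2 : (2 : ℝ) ≤ p := by exact_mod_cast hp.two_le
  have h5 := one_sub_pos p hp
  have h6 : 1 / (p : ℝ) ≤ 1 := by rw [div_le_one (by linarith)]; linarith
  have hb : 1 + (H.card : ℝ) * (-(1 / (p : ℝ))) ≤ (1 + -(1 / (p : ℝ))) ^ H.card :=
    one_add_mul_le_pow (by linarith) _
  rw [inv_pow, ← div_eq_mul_inv, div_le_one (by positivity)]
  calc 1 - (H.card : ℝ) / p = 1 + (H.card : ℝ) * (-(1 / (p : ℝ))) := by ring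
    _ ≤ (1 + -(1 / (p : ℝ))) ^ H.card := hb
    _ = _ := by rw [← sub_eq_add_neg]

lemma fac_ge (H : Finset ℕ) (p : ℕ) (hp : p.Prime) (h : res H p = H.card) (hk : H.card ≤ p) :
    1 - (H.card : ℝ) ^ 2 / (p : ℝ) ^ 2 ≤ fac H p := by
  unfold fac
  rw [h]
  have h2 : (2 : ℝ) ≤ p := by exact_mod_cast hp.two_le
  have h5 := one_sub_pos p hp
  have hp0 : (0 : ℝ) < 1 / (p : ℝ) := by positivity
  have hinv : 1 + 1 / (p : ℝ) ≤ (1 - 1 / (p : ℝ))⁻¹ := by
    rw [← one_div, le_div_iff₀ h5]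
    nlinarith
  have h3 : 1 + (H.card : ℝ) / p ≤ ((1 - 1 / (p : ℝ))⁻¹) ^ H.card := by
    have h4 : 1 + (H.card : ℝ) * (1 / (p : ℝ)) ≤ (1 + 1 / (p : ℝ)) ^ H.card :=
      one_add_mul_le_pow (by linarith) _
    have h6 : (1 + 1 / (p : ℝ)) ^ H.card ≤ ((1 - 1 / (p : ℝ))⁻¹) ^ H.card :=
      pow_le_pow_left₀ (by positivity) hinv _
    calc 1 + (H.card : ℝ) / p = 1 + (H.card : ℝ) * (1 / (p : ℝ)) := by ring
      _ ≤ _ := h4.trans h6
  have h7 : 0 ≤ 1 - (H.card : ℝ) / p := by
    rw [sub_nonneg, div_le_one (by linarith)]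
    exact_mod_cast hk
  calc 1 - (H.card : ℝ) ^ 2 / (p : ℝ) ^ 2 = (1 - (H.card : ℝ) / p) * (1 + (H.card : ℝ) / p) := by
        ring
    _ ≤ _ := mul_le_mul_of_nonneg_left h3 h7

lemma PP_pos (H : Finset ℕ) (h : ∀ p : ℕ, p.Prime → res H p < p) (y : ℕ) : 0 < PP H y := by
  rw [PP_eq]
  refine Finset.prod_pos fun p _ => ?_
  split_ifs with hp
  · exact fac_pos H p hp (h p hp)
  · exact one_pos

/-- one step beyond `N` -/
lemma step (H : Finset ℕ) (N n : ℕ) (hN : H.sup id < N) (hk : H.card ≤ N) (hn : N ≤ n) :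
    (if (n + 1).Prime then fac H (n + 1) else 1) ≤ (1 : ℝ) ∧
      1 - (H.card : ℝ) ^ 2 / ((n + 1 : ℕ) : ℝ) ^ 2 ≤ (if (n + 1).Prime then fac H (n + 1) else 1) := by
  have hlt : ∀ x ∈ H, x < n + 1 := by
    intro x hx
    have : x ≤ H.sup id := Finset.le_sup (f := id) hx
    omega
  split_ifs with hp
  · exact ⟨fac_le_one H _ hp (res_eq H _ hlt), fac_ge H _ hp (res_eq H _ hlt) (by omega)⟩
  · refine ⟨le_rfl, ?_⟩
    have : 0 ≤ (H.card : ℝ) ^ 2 / ((n + 1 : ℕ) : ℝ) ^ 2 := by positivity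
    linarith

lemma lower (H : Finset ℕ) (h : ∀ p : ℕ, p.Prime → res H p < p) (N : ℕ) (hN : H.sup id < N)
    (hk : 2 * H.card ^ 2 + 2 ≤ N) (j : ℕ) :
    PP H N * (1 - (H.card : ℝ) ^ 2 * (1 / (N : ℝ) - 1 / ((j + N : ℕ) : ℝ))) ≤ PP H (j + N) := by
  have hN0 : (0 : ℝ) < N := by
    have : 0 < N := by omega
    exact_mod_cast this
  have hkN : H.card ≤ N := by nlinarith
  induction j with
  | zero => simp
  | succ j ih =>
    have hs := step H N (j + N) hN hkN (by omega)
    have e : j + 1 + N = j + N + 1 := by omega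
    rw [e, PP_succ]
    set y : ℝ := ((j + N : ℕ) : ℝ) with hy
    have hy0 : 0 < y := by
      have : 0 < j + N := by omega
      rw [hy]
      exact_mod_cast this
    have hyN : (N : ℝ) ≤ y := by
      rw [hy]
      exact_mod_cast Nat.le_add_left N j
    have hc : ((j + N + 1 : ℕ) : ℝ) = y + 1 := by
      rw [hy]
      push_cast
      ring
    rw [hc] at hs ⊢
    have hk1 : (H.card : ℝ) ^ 2 / (y + 1) ^ 2 ≤ 1 := by
      rw [div_le_one (by positivity)]
      apply pow_le_pow_left₀ (by positivity)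
      have : (H.card : ℝ) ≤ N := by exact_mod_cast hkN
      linarith
    have h0 : 0 ≤ 1 - (H.card : ℝ) ^ 2 / (y + 1) ^ 2 := by linarith
    refine le_trans ?_ (mul_le_mul ih hs.2 h0 (PP_pos H h _).le)
    rw [mul_assoc]
    apply mul_le_mul_of_nonneg_left _ (PP_pos H h N).le
    have h1 : 0 ≤ (H.card : ℝ) ^ 2 * (1 / (N : ℝ) - 1 / y) := by
      apply mul_nonneg (by positivity)
      have := one_div_le_one_div_of_le hN0 hyN
      linarith
    have h2 : 0 ≤ (H.card : ℝ) ^ 2 / (y + 1) ^ 2 := by positivity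
    have h3 : (H.card : ℝ) ^ 2 / (y + 1) ^ 2 ≤ (H.card : ℝ) ^ 2 * (1 / y - 1 / (y + 1)) := by
      rw [div_eq_mul_one_div]
      apply mul_le_mul_of_nonneg_left _ (by positivity)
      rw [div_sub_div _ _ (by positivity) (by positivity),
        div_le_div_iff₀ (by positivity) (by positivity)]
      nlinarith
    nlinarith [mul_nonneg h1 h2]

theorem t_SIN : Pool.Agent.U485.SM.S_SIN := by
  constructor
  · intro H h
    set N : ℕ := H.sup id + 1 + (2 * H.card ^ 2 + 2) with hNd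
    have hN : H.sup id < N := by omega
    have hk : 2 * H.card ^ 2 + 2 ≤ N := by omega
    have hkN : H.card ≤ N := by nlinarith
    have hN0 : (0 : ℝ) < N := by
      have : 0 < N := by omega
      exact_mod_cast this
    have hanti : Antitone fun j : ℕ => PP H (j + N) := by
      apply antitone_nat_of_succ_le
      intro j
      have e : j + 1 + N = j + N + 1 := by omega
      rw [e, PP_succ]
      exact mul_le_of_le_one_right (PP_pos H h _).le (step H N (j + N) hN hkN (by omega)).1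
    have hlow : ∀ j : ℕ, PP H N * (1 / 2) ≤ PP H (j + N) := by
      intro j
      refine le_trans ?_ (lower H h N hN hk j)
      apply mul_le_mul_of_nonneg_left _ (PP_pos H h N).le
      have h1 : (H.card : ℝ) ^ 2 * (1 / (N : ℝ)) ≤ 1 / 2 := by
        have h2 : 2 * (H.card : ℝ) ^ 2 + 2 ≤ N := by exact_mod_cast hk
        rw [mul_one_div, div_le_iff₀ hN0]
        linarith
      have h3 : 0 ≤ (H.card : ℝ) ^ 2 * (1 / ((j + N : ℕ) : ℝ)) := by positivity
      nlinarith
    have hbdd : BddBelow (Set.range fun j : ℕ => PP H (j + N)) :=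
      ⟨PP H N * (1 / 2), by rintro _ ⟨j, rfl⟩; exact hlow j⟩
    refine ⟨⨅ j : ℕ, PP H (j + N), ?_, ?_⟩
    · have h1 : PP H N * (1 / 2) ≤ ⨅ j : ℕ, PP H (j + N) := le_ciInf hlow
      have h2 := PP_pos H h N
      linarith
    · exact (tendsto_add_atTop_iff_nat N).1 (tendsto_atTop_ciInf hanti hbdd)
  · rintro H ⟨p, hp, hres⟩
    refine tendsto_const_nhds.congr' ?_
    filter_upwards [eventually_ge_atTop p] with y hy
    symm
    rw [PP_eq]
    apply Finset.prod_eq_zero (i := p) (Finset.mem_Icc.2 ⟨hp.one_le, hy⟩)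
    rw [if_pos hp]
    unfold fac
    have : (p : ℝ) ≠ 0 := by exact_mod_cast hp.ne_zero
    rw [hres, div_self this, sub_self, zero_mul]

end Pool.Agent.U934.HT
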